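import Pool.Agent.N375.AV.D
import Pool.Agent.V8H12.MZ.Cnt

/-!
# MP_4d52ff_nt: relations between multiple zeta values with arguments near functions of the values of additive functions and of
# their compositions split into relations of one weight

A pattern in one variable is a nonempty list of letters `b + u s`; at a natural number `s` it gives an index. The number `s` is
bad (for the patterns `w_1, ..., w_r`, for `D` and `H`) if there is a polynomial relation of degree at most `D` with integer
coefficients at most `H` between the multiple zeta values of the patterns at `s` such that its part of some weight is not a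
relation; this is a nontrivial relation `z_0 + ... + z_p = 0` with `z_j` in the space `Z_j`. We consider families of admissible
patterns with even fronts, such as `ζ(2, 2, s, 3)`, `ζ(s, s + 1)`, `ζ(4, 4)` (or for which the relations between the multiple
zeta values of the fronts split).

Let `F = f_1 ∘ ⋯ ∘ f_k` be a composition of functions dominated by the largest prime factor, for example of additive functions
`f` with `f(q^j) ≤ C q^j` which are injective at the large primes (the sum of the prime factors), of the largest prime factor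
and of Kempner's function. For all `m ≤ N` but `K N exp (-δ (log N)^(1/(k+1)))`, for EVERY `n ≥ 1` with
`|n - α F(m)^d| ≤ F(m)^κ`, every polynomial relation of degree at most `D` with integer coefficients of absolute value at most
`C ^ n` between the values of the patterns at `n` splits into relations of one weight, if `d ≥ 1` and `0 ≤ κ < 1`. More
generally `G (F m)` takes the place of `α F(m)^d`, where `G` is any function with steps bounded below by a positive constant
and growth at most `v^d`.

The values of `F` are taken with very large multiplicities, and `F(m)` is in general of smaller order of magnitude than `m`, and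
so this does not follow from the bound for the number of the bad `n` in `[N, κ N]` (`AlmostAllTuples`, helper734). The preimage
tool is `good_nat` of the file `Pool/Agent/N375/AV/D.lean` (helper375).
-/

set_option autoImplicit false

namespace Pool.Agent.Results.MP_4d52ff_nt.AdditiveValues

open Filter Topology
open Pool.Agent.N733.TG (Expanding expanding_pow)
open Pool.Agent.N375.AV (PD comp good_nat pd_additive pd_largest pd_kempner)
open Pool.Agent.Results.MP_4d52ff_nt.AlmostAllTuples (Letter AdmissiblePattern EvenFront Splits fronts Bad)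
open Pool.Agent.V8H12.MZ (Nice bad_mono count_one)

/-- **Theorem.** (1) Let `w_1, ..., w_r` be admissible patterns in one variable with even fronts (or for which the relations
between the multiple zeta values of the fronts split), let `F = comp fs` be a composition of functions dominated by the largest
prime factor (`PD`), let `G` have steps `≥ a > 0` and growth at most `v^d`, and let `0 ≤ κ < 1`. For all `D` and `C` there are
`δ > 0` and `K` such that for all `m ≤ N` but `K N exp (-δ (log N)^(1/(k+1)))`, `k` the number of the functions in `fs`, for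
EVERY `n ≥ 1` with `|n - G(F m)| ≤ (F m)^κ` every polynomial relation of degree at most `D` with integer coefficients of
absolute value at most `C ^ n` between the multiple zeta values `ζ(w_i(n))` splits into relations of one weight. (2) Functions
`f` which are additive (on coprime arguments), with `f(q^j) ≤ C q^j` and injective at the large primes, are dominated by the
largest prime factor; so are the largest prime factor and Kempner's function. `a v^d` with `a > 0`, `d ≥ 1` is an example of
`G`. -/
theorem result :
    (∀ (r : ℕ) (w : Fin r → List (Letter 1)), (∀ i, AdmissiblePattern (w i)) →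
      ((∀ i, EvenFront (w i)) ∨ Splits (fronts w)) → ∀ (D : ℕ) (C : ℝ), ∀ fs : List (ℕ → ℕ), (∀ f ∈ fs, PD f) →
      ∀ (G : ℕ → ℝ) (d : ℝ), Expanding G d → ∀ κ : ℝ, 0 ≤ κ → κ < 1 →
      ∃ δ K : ℝ, 0 < δ ∧ ∀ N : ℕ, 1 ≤ N →
        ({m : ℕ | 1 ≤ m ∧ m ≤ N ∧ ¬ ∀ n : ℕ, 1 ≤ n → |(n : ℝ) - G (comp fs m)| ≤ (comp fs m : ℝ) ^ κ →
          ¬ Bad w D (C ^ n) (fun _ => n)}.ncard : ℝ) ≤
            K * N * Real.exp (-(δ * Real.log N ^ ((1 : ℝ) / (fs.length + 1))))) ∧
    ((∀ f : ℕ → ℕ, (∀ a b : ℕ, Nat.Coprime a b → f (a * b) = f a + f b) →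
        (∃ C : ℕ, ∀ q j : ℕ, q.Prime → 1 ≤ j → f (q ^ j) ≤ C * q ^ j) →
        (∃ P : ℕ, ∀ p q : ℕ, p.Prime → q.Prime → P ≤ p → P ≤ q → f p = f q → p = q) → PD f) ∧
      PD (fun n => n.primeFactors.sup id) ∧ PD (fun n => sInf {k : ℕ | n ∣ k.factorial})) ∧
    ∀ a d : ℝ, 0 < a → 1 ≤ d → Expanding (fun v => a * (v : ℝ) ^ d) d := by
  refine ⟨fun r w hw hw2 D C fs hfs G d hG κ hκ h2 => ?_,
    ⟨fun f h1 h2 h3 => pd_additive h1 h2 h3, pd_largest, pd_kempner⟩,
    fun a d ha hd => expanding_pow ha hd⟩
  obtain ⟨B, hB⟩ : ∃ B : ℝ, B = |C| + 1 := ⟨_, rfl⟩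
  have hB1 : 1 ≤ B := by
    rw [hB]
    linarith [abs_nonneg C]
  obtain ⟨δ, K, hδ, hK⟩ := good_nat (fun _ => True) (fun n => ¬ Bad w D (B ^ n) (fun _ => n)) fs hfs hG (s := 0) (κ := κ)
    le_rfl hκ (by linarith) (fun ε hε => by
      obtain ⟨A, hA⟩ := count_one (w := w) ⟨hw, hw2⟩ D hB1 hε
      refine ⟨A, fun X hX => ?_⟩
      rw [zero_add]
      refine le_trans (le_of_eq ?_) (hA X hX)
      congr 2
      ext t
      exact ⟨fun h => ⟨h.1, h.2.1, not_not.1 h.2.2.2⟩, fun h => ⟨h.1, h.2.1, trivial, not_not.2 h.2.2⟩⟩)
  refine ⟨δ, K, hδ, fun N hN => le_trans ?_ (hK N hN)⟩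
  have hfin : {m : ℕ | 1 ≤ m ∧ m ≤ N ∧ ¬ ∀ n : ℕ, 1 ≤ n → True → |(n : ℝ) - G (comp fs m)| ≤ (comp fs m : ℝ) ^ κ →
      ¬ Bad w D (B ^ n) (fun _ => n)}.Finite := by
    apply (Set.finite_Icc 1 N).subset
    intro m hm
    exact ⟨hm.1, hm.2.1⟩
  have h3 : {m : ℕ | 1 ≤ m ∧ m ≤ N ∧ ¬ ∀ n : ℕ, 1 ≤ n → |(n : ℝ) - G (comp fs m)| ≤ (comp fs m : ℝ) ^ κ →
      ¬ Bad w D (C ^ n) (fun _ => n)} ⊆ {m : ℕ | 1 ≤ m ∧ m ≤ N ∧ ¬ ∀ n : ℕ, 1 ≤ n → True →
        |(n : ℝ) - G (comp fs m)| ≤ (comp fs m : ℝ) ^ κ → ¬ Bad w D (B ^ n) (fun _ => n)} := by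
    rintro m ⟨h1, h4, h5⟩
    refine ⟨h1, h4, fun h6 => h5 fun n hn h7 h8 => h6 n hn trivial h7 (bad_mono ?_ h8)⟩
    calc C ^ n ≤ |C| ^ n := by
          rw [← abs_pow]
          exact le_abs_self _
      _ ≤ B ^ n := by
          refine pow_le_pow_left₀ (abs_nonneg C) ?_ n
          rw [hB]
          linarith
  exact_mod_cast Set.ncard_le_ncard h3 hfin

end Pool.Agent.Results.MP_4d52ff_nt.AdditiveValues
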