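import Pool.Agent.N671.DA.Tup
import Pool.Agent.V8H12.MZ.Cnt

/-!
# MP_4d52ff_nt: relations between multiple zeta values with arguments given by the best approximation vectors of almost all
# systems of linear forms split into relations of one weight

A pattern in `k` variables is a nonempty list of letters `b + u_1 s_1 + ... + u_k s_k`; at a tuple `s` of natural numbers
it gives an index. The tuple `s` is bad (for the patterns `w_1, ..., w_r`, for `D` and `H`) if there is a polynomial relation
of degree at most `D` with integer coefficients at most `H` between the multiple zeta values of the patterns at `s` such that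
its part of some weight is not a relation; this is a nontrivial relation `z_0 + ... + z_p = 0` with `z_j` in the space `Z_j`.
We consider families of admissible patterns with even fronts, such as `ζ(2, 2, s_1, 3)`, `ζ(s_1, s_2)`, `ζ(4, 4)` (or for which
the relations between the multiple zeta values of the fronts split).

Let `α` be a real matrix with `k` rows and `m` columns, `β` in `ℝ^m` and `τ > 0`. We consider the integer vectors
`q = (q_1, ..., q_k)` such that `‖(q α)_i - β_i‖ ≤ c |q| ^ (-τ)` for `i = 1, …, m`, `‖x‖` the distance to the nearest integer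
and `|q|` the maximum norm; for `β = 0`, `c = 1` and `τ = k / m` they include all best approximation vectors of the system of
linear forms `q α`, by the theorem of Minkowski. For `k = 1` they are the denominators of good simultaneous approximations of
`m` real numbers. We show: for all `α` outside one set of Hausdorff dimension at most `(k - 1) m + (m + k - 1) / (1 + τ)`,
which is less than `k m` for `τ = k / m`, and so for almost all `α`, the following is true for ALL these families of patterns,
all `D`, `κ`, `C` and `c`: for all but finitely many of these `q`, if all `|q_i|` are between `X` and `κ X`, then every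
polynomial relation of degree at most `D` with integer coefficients of absolute value at most `C ^ X` between the
`ζ(w_i(|q_1|, ..., |q_k|))` splits into relations of one weight.

The best approximation vectors are a very sparse sequence, about `log T` vectors of norm at most `T`, and so this does not
follow from the bound `K N ^ (k - 1)` for the number of the bad tuples in `[N, κ N] ^ k` (`AlmostAllTuples`, helper734). The
proof uses `Pool/Agent/N671/DA`.
-/

set_option autoImplicit false

namespace Pool.Agent.Results.MP_4d52ff_nt.BestApproximations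

open Pool.Agent.Results.MP_4d52ff_nt.AlmostAllTuples (Letter AdmissiblePattern EvenFront Splits fronts Bad)
open Pool.Agent.V8H12.MZ (Nice bad_mono count_rpow WW)
open Pool.Agent.N671.DA (Near Thin thin_natAbs approx_vectors)

/-- the parameters: the patterns, the degree, the ratio and the size of the coefficients -/
abbrev Par (k : ℕ) : Type := Σ r : ℕ, (Fin r → List (Letter k)) × ℕ × ℕ × ℕ

/-- one family of patterns -/
lemma one {k m : ℕ} (hk : 1 ≤ k) (β : Fin m → ℝ) {τ : ℝ} (hτ : 0 < τ) (i : Par k) :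
    ∃ E : Set (Fin k × Fin m → ℝ), dimH E ≤ ENNReal.ofReal (((k : ℝ) - 1) * m + (m + ((k : ℝ) - 1)) / (1 + τ)) ∧
      (Nice i.2.1 → ∀ α, α ∉ E → ∀ c : ℝ, ∃ Q : ℝ, ∀ q : Fin k → ℤ, Q ≤ ‖q‖ → Near α β q (c * ‖q‖ ^ (-τ)) →
        (fun j => (q j).natAbs) ∉ WW i.2.1 i.2.2.1 i.2.2.2.1 ((i.2.2.2.2 : ℝ) + 1)) := by
  by_cases hN : Nice i.2.1
  · have hk1 : (1 : ℝ) ≤ k := by exact_mod_cast hk
    have hC : (1 : ℝ) ≤ (i.2.2.2.2 : ℝ) + 1 := by
      have : (0 : ℝ) ≤ i.2.2.2.2 := Nat.cast_nonneg _
      linarith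
    obtain ⟨W, hW⟩ : ∃ W : Set (Fin k → ℕ), W = WW i.2.1 i.2.2.1 i.2.2.2.1 ((i.2.2.2.2 : ℝ) + 1) := ⟨_, rfl⟩
    have hThin : Thin {q : Fin k → ℤ | ¬ ((∀ i, 2 ≤ (q i).natAbs) ∧ (fun i => (q i).natAbs) ∉ W)} ((k : ℝ) - 1) := by
      intro ε hε
      obtain ⟨A, hA⟩ := count_rpow hk hN i.2.2.1 i.2.2.2.1 hC (ε := ε / 2) (by linarith)
      obtain ⟨B, hB⟩ := thin_natAbs hk W (c₀ := 1 - ε / 2) (C₀ := A) (by linarith) (fun T hT => by
        have h1 := hA T hT
        rw [show (k : ℝ) - (1 - ε / 2) = (k : ℝ) - 1 + ε / 2 by ring]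
        refine le_trans ?_ h1
        have hfin : {s : Fin k → ℕ | (∀ i, s i ≤ T) ∧ s ∈ WW i.2.1 i.2.2.1 i.2.2.2.1 ((i.2.2.2.2 : ℝ) + 1)}.Finite := by
          refine (Set.Finite.pi' (t := fun _ : Fin k => Set.Icc 0 T) fun _ => Set.finite_Icc _ _).subset ?_
          intro s hs i
          exact ⟨Nat.zero_le _, hs.1 i⟩
        have h2 : {w : Fin k → ℕ | (∀ i, 2 ≤ w i ∧ w i ≤ T) ∧ w ∈ W}.ncard ≤
            {s : Fin k → ℕ | (∀ i, s i ≤ T) ∧ s ∈ WW i.2.1 i.2.2.1 i.2.2.2.1 ((i.2.2.2.2 : ℝ) + 1)}.ncard := by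
          refine Set.ncard_le_ncard ?_ hfin
          rintro s ⟨hs1, hs2⟩
          rw [hW] at hs2
          exact ⟨fun i => (hs1 i).2, hs2⟩
        exact_mod_cast h2) (ε / 2) (by linarith)
      refine ⟨B, fun X hX => (hB X hX).trans (le_of_eq ?_)⟩
      congr 2
      ring
    obtain ⟨E, hE, hE2⟩ := approx_vectors hk _ (s := (k : ℝ) - 1) (by linarith) hThin β hτ
    refine ⟨E, hE, fun _ α hα c => ?_⟩
    obtain ⟨Q, hQ⟩ := hE2 α hα c
    refine ⟨Q, fun q hq h1 h2 => hQ q hq h1 ?_⟩
    rintro ⟨-, h3⟩
    apply h3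
    rw [hW]
    exact h2
  · exact ⟨∅, by simp, fun h => absurd h hN⟩

/-- **Theorem.** Let `k ≥ 1`, `β ∈ ℝ^m` and `τ > 0`. For all real matrices `α` with `k` rows and `m` columns outside a set of
Hausdorff dimension at most `(k - 1) m + (m + k - 1) / (1 + τ)`, for all families `w_1, ..., w_r` of admissible patterns in
`k` variables with even fronts (or for which the relations between the multiple zeta values of the fronts split), all natural
numbers `D`, `κ` and all real `C`, `c` there is `Q` such that for all integer vectors `q` of norm at least `Q` with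
`‖(q α)_i - β_i‖ ≤ c |q| ^ (-τ)` for `i = 1, …, m`, and all `X ≥ 1` with `X ≤ |q_i| ≤ κ X` for all `i`, every polynomial
relation of degree at most `D` with integer coefficients of absolute value at most `C ^ X` between the multiple zeta values
`ζ(w_i(|q_1|, ..., |q_k|))` splits into relations of one weight. -/
theorem result (k m : ℕ) (hk : 1 ≤ k) (β : Fin m → ℝ) (τ : ℝ) (hτ : 0 < τ) :
    ∃ E : Set (Fin k × Fin m → ℝ), dimH E ≤ ENNReal.ofReal (((k : ℝ) - 1) * m + (m + ((k : ℝ) - 1)) / (1 + τ)) ∧
      ∀ α, α ∉ E → ∀ (r : ℕ) (w : Fin r → List (Letter k)), (∀ i, AdmissiblePattern (w i)) →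
        ((∀ i, EvenFront (w i)) ∨ Splits (fronts w)) → ∀ (D κ : ℕ) (C c : ℝ), ∃ Q : ℝ, ∀ q : Fin k → ℤ, Q ≤ ‖q‖ →
          Near α β q (c * ‖q‖ ^ (-τ)) → ∀ X : ℕ, 1 ≤ X → (∀ i, X ≤ (q i).natAbs ∧ (q i).natAbs ≤ κ * X) →
            ¬ Bad w D (C ^ X) (fun i => (q i).natAbs) := by
  choose E hE1 hE2 using one hk β hτ
  refine ⟨⋃ i, E i, ?_, fun α hαE r w hw hw2 D κ C c => ?_⟩
  · rw [dimH_iUnion]
    exact iSup_le hE1
  · have h1 : α ∉ E ⟨r, w, D, κ, ⌈|C|⌉₊⟩ := fun h => hαE (Set.mem_iUnion.2 ⟨_, h⟩)
    obtain ⟨Q, hQ⟩ := hE2 ⟨r, w, D, κ, ⌈|C|⌉₊⟩ ⟨hw, hw2⟩ α h1 c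
    refine ⟨Q, fun q hq h2 X hX h3 h4 => hQ q hq h2 ⟨X, hX, h3, bad_mono ?_ h4⟩⟩
    calc C ^ X ≤ |C| ^ X := by
          rw [← abs_pow]
          exact le_abs_self _
      _ ≤ ((⌈|C|⌉₊ : ℝ) + 1) ^ X := by
          refine pow_le_pow_left₀ (abs_nonneg C) ?_ X
          have := Nat.le_ceil |C|
          linarith

end Pool.Agent.Results.MP_4d52ff_nt.BestApproximations
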