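import Pool.Agent.N760.SC.B
import Pool.Agent.Results.MP_4d52ff_nt.AlmostAllTuples

/-!
# MP_4d52ff_nt: relations between multiple zeta values at the values of arithmetic functions split into relations of one
# weight

A pattern in `k` variables is a nonempty list of letters `b + u_1 s_1 + ... + u_k s_k`; at a tuple `s` of natural numbers
it gives an index. The first letters may be constant. The tuple `s` is bad (for `D` and `H`) if there is a polynomial relation
of degree at most `D` with integer coefficients at most `H` between the multiple zeta values of the patterns at `s` such that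
its part of some weight is not a relation; this is a nontrivial relation `z_0 + ... + z_p = 0` with `z_j` in the space `Z_j`.

Let `F_1, ..., F_k` be positive multiplicative functions of at most polynomial growth with `F_i p ≤ M p` for the large primes
`p` and different values at different large primes, for example Euler's function or the sum of the divisors, and let
`0 ≤ θ`, `k θ < 1`. An argument tuple `m ∈ [1, N] ^ k` is good if NO tuple `s` near the tuple of the values,
`|s_i - F_i(m_i)| ≤ F_i(m_i) ^ θ`, in a cone `T ≤ s_i ≤ κ T`, is bad for `D` and `H = C ^ T`.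

Theorem. (1) If the fronts of the patterns are even (`2a, ..., 2a`, or empty), or if the relations between the multiple zeta
values of the fronts split, then for all large `N` all but `N ^ k / (log N) ^ U` of the `m ∈ [1, N] ^ k` are good. The first
case is unconditional.

(2) Conversely, the following are equivalent: (a) the sum `Z_0 + ... + Z_p` is direct for all `p` (Q1); (b) the conclusion of
(1) holds for all patterns and all `F_i`; (c) for all patterns in one variable with exactly one letter which is not constant,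
`s + b`, for all but at most `N / log N` of the `m ≤ N` the relations of degree one with integer coefficients at most `2 ^ s`
split for all `s` with `|s - φ(m)| ≤ φ(m) ^ (1/2)`.

The values of such functions form a thin set and are taken with very large multiplicities. So (1) does not follow from the
number of the bad tuples (`AlmostAllTuples`, helper734: at most `K N ^ (k - 1)` in `[N, κ N] ^ k`), which is used. The tool
for the values of multiplicative functions is `Pool.Agent.N760.SC` (helper760).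
-/

set_option autoImplicit false

namespace Pool.Agent.Results.MP_4d52ff_nt.MultiplicativeValues

open Pool.Agent.N733.TG (LM lm_totient lm_sigma)
open AlmostAllTuples (mzv Letter index AdmissiblePattern fronts EvenFront OneLarge IsDirect Splits Bad Few part
  OneLargeArgument)

/-- For all large `N`, for all but `N ^ k / (log N) ^ U` of the tuples `m ∈ [1, N] ^ k` the property `E (C ^ T)` fails for ALL
tuples `s` with `|s_i - F_i(m_i)| ≤ F_i(m_i) ^ θ` and `T ≤ s_i ≤ κ T`, `T ≥ 1`. -/
def ThinNear {k : ℕ} (κ : ℕ) (C : ℝ) (F : Fin k → ℕ → ℕ) (θ : ℝ) (U : ℕ) (E : ℝ → (Fin k → ℕ) → Prop) : Prop :=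
  ∃ N₀ : ℕ, ∀ N : ℕ, N₀ ≤ N →
    ({m : Fin k → ℕ | (∀ i, 1 ≤ m i ∧ m i ≤ N) ∧ ∃ (s : Fin k → ℕ) (T : ℕ), 1 ≤ T ∧ (∀ i, T ≤ s i ∧ s i ≤ κ * T) ∧
      (∀ i, |(s i : ℝ) - F i (m i)| ≤ (F i (m i) : ℝ) ^ θ) ∧ E (C ^ T) s}.ncard : ℝ) ≤ (N : ℝ) ^ k / Real.log N ^ U

/-- statement (b): for all patterns in `k ≥ 1` variables and all `F_i` with `LM`, the tuples near the tuples of the values of
the `F_i` are not bad, up to a thin set -/
def AllValues : Prop :=
  ∀ (k r : ℕ), 1 ≤ k → ∀ w : Fin r → List (Letter k), (∀ i, AdmissiblePattern (w i)) → ∀ (D κ : ℕ) (C : ℝ)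
    (F : Fin k → ℕ → ℕ), (∀ i, LM (F i)) → ∀ θ : ℝ, 0 ≤ θ → k * θ < 1 → ∀ U : ℕ,
    ThinNear κ C F θ U (fun H s => Bad w D H s)

/-- statement (c): the same for the patterns in one variable with exactly one letter which is not constant, `s + b`, Euler's
function, relations of degree one, `κ = 1`, `C = 2`, `θ = 1 / 2` and `U = 1` -/
def NearTotients : Prop :=
  ∀ (r : ℕ) (w : Fin r → List (Letter 1)), (∀ i, AdmissiblePattern (w i) ∧ OneLarge (w i)) →
    ThinNear 1 2 (fun _ => Nat.totient) (1 / 2) 1 (fun H s => Bad w 1 H s)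

lemma pow_bound (C : ℝ) {N T : ℕ} (h : T ≤ 2 * N) : C ^ T ≤ ((max |C| 1) ^ 2) ^ N := by
  have h5 : (1 : ℝ) ≤ max |C| 1 := le_max_right _ _
  calc C ^ T ≤ |C ^ T| := le_abs_self _
    _ = |C| ^ T := abs_pow C T
    _ ≤ (max |C| 1) ^ T := pow_le_pow_left₀ (abs_nonneg C) (le_max_left _ _) T
    _ ≤ (max |C| 1) ^ (2 * N) := pow_le_pow_right₀ h5 h
    _ = _ := pow_mul _ _ _

lemma thin_of_few {k : ℕ} (hk : 1 ≤ k) (κ : ℕ) (C : ℝ) {F : Fin k → ℕ → ℕ} (hF : ∀ i, LM (F i)) {θ : ℝ} (hθ : 0 ≤ θ)
    (hθk : k * θ < 1) (U : ℕ) {E : ℝ → (Fin k → ℕ) → Prop} (hE : ∀ H H' s, H ≤ H' → E H s → E H' s)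
    (h : Few (2 * κ) E) : ThinNear κ C F θ U E := by
  obtain ⟨K, hK⟩ := h
  obtain ⟨N₁, hN₁⟩ := hK ((max |C| 1) ^ 2)
  obtain ⟨N₀, hN₀⟩ := Pool.Agent.N760.SC.keep_scales hk κ (fun T s => E (C ^ T) s)
    (fun N s => E (((max |C| 1) ^ 2) ^ N) s)
    (fun N T s h1 h2 h3 => hE _ _ s (pow_bound C h2.le) h3)
    ⟨K, N₁, fun N hN => hN₁ N hN⟩ hF hθ hθk U
  refine ⟨N₀, fun N hN => le_trans (le_of_eq ?_) (hN₀ N hN)⟩
  congr 2
  ext m
  constructor
  · rintro ⟨h1, s, T, h2, h3, h4, h5⟩
    exact ⟨h1, fun h => h s T h2 h3 h4 h5⟩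
  · rintro ⟨h1, h2⟩
    push Not at h2
    obtain ⟨s, T, h2, h3, h4, h5⟩ := h2
    exact ⟨h1, s, T, h2, h3, h4, h5⟩

lemma bad_mono {k r : ℕ} (w : Fin r → List (Letter k)) (D : ℕ) (H H' : ℝ)
    (s : Fin k → ℕ) (h : H ≤ H') (hB : Bad w D H s) : Bad w D H' s := by
  obtain ⟨P, h1, h2, h3⟩ := hB
  exact ⟨P, h1, fun m => (h2 m).trans h, h3⟩

lemma all_of_direct (h : ∀ p, IsDirect p) : AllValues := by
  intro k r hk w hw D κ C F hF θ hθ hθk U
  exact thin_of_few hk κ C hF hθ hθk U (fun H H' s => bad_mono w D H H' s)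
    (AlmostAllTuples.a_to_b (AlmostAllTuples.splits_of_direct h) k r w hw D (2 * κ))

lemma near_of_all (h : AllValues) : NearTotients := by
  intro r w hw
  exact h 1 r le_rfl w (fun i => (hw i).1) 1 1 2 (fun _ => Nat.totient) (fun _ => lm_totient) (1 / 2) (by norm_num)
    (by norm_num) 1

/-- a linear relation which does not split -/
lemma bad_of_linear {k r : ℕ} (w : Fin r → List (Letter k)) (s : Fin k → ℕ)
    (B : ℕ) (H : ℝ) (hB1 : (B : ℝ) ≤ H) (a : Fin r → ℤ) (ha : ∀ i, |a i| ≤ B)
    (hR : ∑ i, (a i : ℝ) * mzv (index s (w i)) = 0) (p : ℕ)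
    (hA : ∑ i with (index s (w i)).sum = p, (a i : ℝ) * mzv (index s (w i)) ≠ 0) : Bad w 1 H s := by
  classical
  refine ⟨∑ i, MvPolynomial.C (a i) * MvPolynomial.X i, ?_, fun m => ?_, ?_, p, ?_⟩
  · refine MvPolynomial.totalDegree_finsetSum_le fun i _ => ?_
    refine (MvPolynomial.totalDegree_mul _ _).trans ?_
    rw [MvPolynomial.totalDegree_C, zero_add]
    exact (MvPolynomial.totalDegree_X _).le
  · rw [MvPolynomial.coeff_sum]
    simp only [MvPolynomial.coeff_C_mul, MvPolynomial.coeff_X]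
    refine le_trans ?_ hB1
    by_cases hm : ∃ i, Finsupp.single i 1 = m
    · obtain ⟨i₀, rfl⟩ := hm
      have h4 : ∑ x, a x * (if Finsupp.single x 1 = Finsupp.single i₀ 1 then (1 : ℤ) else 0) = a i₀ := by
        rw [Finset.sum_eq_single i₀]
        · rw [if_pos rfl, mul_one]
        · intro x _ hx
          rw [if_neg, mul_zero]
          intro h5
          exact hx ((Finsupp.single_left_inj one_ne_zero).1 h5)
        · intro h5
          exact absurd (Finset.mem_univ _) h5
      rw [h4]
      exact_mod_cast ha i₀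
    · have h4 : ∑ x, a x * (if Finsupp.single x 1 = m then (1 : ℤ) else 0) = 0 := by
        refine Finset.sum_eq_zero fun x _ => ?_
        rw [if_neg fun h5 => hm ⟨x, h5⟩, mul_zero]
      rw [h4, Int.cast_zero, abs_zero]
      exact Nat.cast_nonneg _
  · rw [map_sum]
    refine Eq.trans (Finset.sum_congr rfl fun i _ => ?_) hR
    rw [map_mul, MvPolynomial.aeval_C, MvPolynomial.aeval_X]
    rfl
  · rw [← AlmostAllTuples.coeff_gval, AlmostAllTuples.gval, map_sum]
    intro h5
    refine hA ?_
    rw [← AlmostAllTuples.coeff_linear (fun i => index s (w i)) a p, ← h5]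
    congr 1
    refine Finset.sum_congr rfl fun i _ => ?_
    rw [map_mul, MvPolynomial.aeval_C, MvPolynomial.aeval_X]
    rfl

lemma large_of_near (h : NearTotients) : OneLargeArgument := by
  classical
  intro r w hw B s₁
  by_contra hcon
  push Not at hcon
  obtain ⟨N₀, hN₀⟩ := h r w hw
  obtain ⟨q, hq, hqp⟩ := Nat.exists_infinite_primes (s₁ + B + 3)
  obtain ⟨M, hM⟩ := ((Real.tendsto_log_atTop.comp tendsto_natCast_atTop_atTop).eventually_gt_atTop (q : ℝ)).exists_forall_of_atTop
  obtain ⟨L, hL⟩ : ∃ L : ℕ, L = N₀ + M + 1 := ⟨_, rfl⟩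
  have hlog : (q : ℝ) < Real.log ((q * L : ℕ) : ℝ) := hM (q * L) (by nlinarith)
  have hq0 : (0 : ℝ) < q := by exact_mod_cast (by omega : 0 < q)
  have h1 := hN₀ (q * L) (by nlinarith)
  set S : Set (Fin 1 → ℕ) := {m : Fin 1 → ℕ | (∀ i, 1 ≤ m i ∧ m i ≤ q * L) ∧ ∃ (s : Fin 1 → ℕ) (T : ℕ), 1 ≤ T ∧
    (∀ i, T ≤ s i ∧ s i ≤ 1 * T) ∧ (∀ i, |(s i : ℝ) - Nat.totient (m i)| ≤ (Nat.totient (m i) : ℝ) ^ (1 / 2 : ℝ)) ∧
    Bad w 1 (2 ^ T) s} with hS
  let f : ℕ → Fin 1 → ℕ := fun j _ => q * (j + 1)
  have hf : Function.Injective f := by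
    intro i j hij
    have h2 : q * (i + 1) = q * (j + 1) := congrFun hij 0
    have := Nat.eq_of_mul_eq_mul_left (by omega : 0 < q) h2
    omega
  have h2 : f '' ((Finset.range L : Finset ℕ) : Set ℕ) ⊆ S := by
    rintro m ⟨j, hj, rfl⟩
    rw [Finset.mem_coe, Finset.mem_range] at hj
    have hm : 2 < q * (j + 1) := by nlinarith
    have hdvd : q.totient ∣ (q * (j + 1)).totient := Nat.totient_dvd_of_dvd (dvd_mul_right _ _)
    have hpos : 0 < (q * (j + 1)).totient := Nat.totient_pos.2 (by omega)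
    have hle : q - 1 ≤ (q * (j + 1)).totient := by
      rw [← Nat.totient_prime hqp]
      exact Nat.le_of_dvd hpos hdvd
    have heven : Even (q * (j + 1)).totient := Nat.totient_even hm
    obtain ⟨v, hv⟩ : ∃ v, v = (q * (j + 1)).totient := ⟨_, rfl⟩
    rw [← hv] at hle hpos heven
    obtain ⟨a, ha, hR, p, hA⟩ := hcon (v + 1) (by omega) heven.add_one
    refine ⟨fun i => ⟨?_, Nat.mul_le_mul_left q (by omega)⟩, fun _ => v + 1, v + 1, by omega, fun i => ⟨le_rfl, (one_mul (v + 1)).ge⟩,
      fun i => ?_, bad_of_linear w (fun _ => v + 1) B _ ?_ a ha hR p hA⟩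
    · change 1 ≤ q * (j + 1)
      omega
    · change |((v + 1 : ℕ) : ℝ) - ((q * (j + 1)).totient : ℝ)| ≤ (((q * (j + 1)).totient : ℕ) : ℝ) ^ (1 / 2 : ℝ)
      rw [← hv]
      have h3 : ((v + 1 : ℕ) : ℝ) - (v : ℝ) = 1 := by push_cast; ring
      rw [h3, abs_one]
      exact Real.one_le_rpow (by exact_mod_cast hpos) (by norm_num)
    · have h4 : B ≤ 2 ^ (v + 1) := by
        have h5 : v + 1 < 2 ^ (v + 1) := Nat.lt_two_pow_self
        omega
      exact_mod_cast h4
  have hfin : S.Finite := by
    refine (Set.Finite.pi' (t := fun _ : Fin 1 => Set.Icc 1 (q * L)) fun _ => Set.finite_Icc _ _).subset ?_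
    intro m hm j
    exact ⟨(hm.1 j).1, (hm.1 j).2⟩
  have h3 := Set.ncard_le_ncard h2 hfin
  rw [Set.ncard_image_of_injective _ hf, Set.ncard_coe_finset, Finset.card_range] at h3
  have h4 : (L : ℝ) ≤ ((q * L : ℕ) : ℝ) ^ 1 / Real.log ((q * L : ℕ) : ℝ) ^ 1 := le_trans (by exact_mod_cast h3) h1
  rw [pow_one, pow_one, le_div_iff₀ (hq0.trans hlog)] at h4
  have hL0 : (0 : ℝ) < L := by exact_mod_cast (by omega : 0 < L)
  push_cast at h4 hlog
  nlinarith

/-- **Theorem.** (1) Let `w_1, ..., w_r` be admissible patterns in `k ≥ 1` variables with even fronts, or for which the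
polynomial relations between the multiple zeta values of the fronts split into relations of one weight. Let `D`, `κ` be
natural numbers, `C` a real number, `F_1, ..., F_k` functions with `LM`, `θ ≥ 0`, `k θ < 1`, and `U` a natural number. For all
large `N`, for all but `N ^ k / (log N) ^ U` of the `m ∈ [1, N] ^ k`, no tuple `s` with `|s_i - F_i(m_i)| ≤ F_i(m_i) ^ θ` and
`T ≤ s_i ≤ κ T` is bad, for the degree `D` and the height `C ^ T`: every polynomial relation of this degree and height between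
the multiple zeta values of the patterns at `s` splits into relations of one weight. (2) The following are equivalent: all
sums `Z_0 + ... + Z_p` are direct; `AllValues`; `NearTotients`. (3) Euler's function and the sum of the divisors satisfy
`LM`. -/
theorem result :
    (∀ (k r : ℕ), 1 ≤ k → ∀ w : Fin r → List (Letter k), (∀ i, AdmissiblePattern (w i)) →
      (∀ i, EvenFront (w i)) ∨ Splits (fronts w) → ∀ (D κ : ℕ) (C : ℝ)
      (F : Fin k → ℕ → ℕ), (∀ i, LM (F i)) → ∀ θ : ℝ, 0 ≤ θ → k * θ < 1 → ∀ U : ℕ,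
      ThinNear κ C F θ U (fun H s => Bad w D H s)) ∧
    (((∀ p, IsDirect p) ↔ AllValues) ∧ (AllValues ↔ NearTotients)) ∧
    LM Nat.totient ∧ LM (fun m => ∑ d ∈ m.divisors, d) := by
  refine ⟨fun k r hk w hw he D κ C F hF θ hθ hθk U => ?_, ?_, lm_totient, lm_sigma⟩
  · refine thin_of_few hk κ C hF hθ hθk U (fun H H' s => bad_mono w D H H' s) ?_
    rcases he with he | he
    · exact AlmostAllTuples.result.1 k r w hw he D (2 * κ)
    · exact AlmostAllTuples.result.2.1 k r w hw he D (2 * κ)
  · have hback : NearTotients → ∀ p, IsDirect p := fun h =>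
      AlmostAllTuples.direct_of_splits (AlmostAllTuples.c_to_a (large_of_near h))
    exact ⟨⟨all_of_direct, fun h => hback (near_of_all h)⟩, ⟨near_of_all, fun h => all_of_direct (hback h)⟩⟩

end Pool.Agent.Results.MP_4d52ff_nt.MultiplicativeValues
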