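import Pool.Agent.R482.ST.Star
import Pool.Agent.V8H12.MZ.Cnt

/-!
# MP_4d52ff_nt: relations between multiple zeta values with arguments near powers, orbits and other sequences of almost all
# real numbers split into relations of one weight

A pattern in one variable is a nonempty list of letters `b + u s`; at a natural number `s` it gives an index. The number `s` is
bad (for the patterns `w_1, ..., w_r`, for `D` and `H`) if there is a polynomial relation of degree at most `D` with integer
coefficients at most `H` between the multiple zeta values of the patterns at `s` such that its part of some weight is not a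
relation; this is a nontrivial relation `z_0 + ... + z_p = 0` with `z_j` in the space `Z_j`. We consider families of admissible
patterns with even fronts, such as `ζ(2, 2, s, 3)`, `ζ(s, s + 1)`, `ζ(4, 4)` (or for which the relations between the multiple
zeta values of the fronts split).

Let `f_k`, `k = 0, 1, 2, …`, be positive functions on `(a, ∞)`, `a ≥ 0`, such that `f_k(t) / t` is nondecreasing, and such
that the sequence `f_k(t)` has exponent of convergence at most `τ` for each `t > a`: for instance `f_k(t) = v_k t`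
(`τ` the exponent of convergence of `v_k > 0`), `f_k(t) = t ^ (v_k)` for exponents `v_k ≥ 1` (`τ = 0`), or the
orbits `f_k(t) = g (g (⋯ g (t)))` of any map `g` with `g(t) > t` and `g(t) / t` nondecreasing (`τ = 0`). Let `θ < 1`. Outside
one set of numbers `α` of Hausdorff dimension at most `τ / (1 - θ)`, which is `0` for `τ = 0`, the following is true for ALL
these families of patterns, all `D`, `C` and `c`: for all but finitely many `k`, for EVERY integer `n` with
`|n - f_k(α)| ≤ c f_k(α) ^ θ`, every polynomial relation of degree at most `D` with integer coefficients of absolute value at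
most `C ^ n` between the values of the patterns at `n` splits into relations of one weight.

The theorem `AlmostAllTuples` of this page (helper734) bounds the number of the bad `n` in `[N, κ N]`, for each family, `D` and
`C`. The windows contain `f_k(α) ^ θ` integers, and no window may contain a bad one.
-/

set_option autoImplicit false

namespace Pool.Agent.Results.MP_4d52ff_nt.StarshapedSequences

open Pool.Agent.Results.MP_4d52ff_nt.AlmostAllTuples (Letter AdmissiblePattern EvenFront Splits fronts Bad)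
open Pool.Agent.V8H12.MZ (Nice bad_mono count_one)

/-- the functions `f n` are positive on `(a, ∞)`, `a ≥ 0`, and `f n x / x` is nondecreasing there -/
def Starshaped (a : ℝ) (f : ℕ → ℝ → ℝ) : Prop :=
  0 ≤ a ∧ ∀ n : ℕ, ∀ x y : ℝ, a < x → x ≤ y → 0 < f n x ∧ f n x / x ≤ f n y / y

/-- for each `x > a` the exponent of convergence of the sequence `f n x` is at most `τ` -/
def ExpLe (a : ℝ) (f : ℕ → ℝ → ℝ) (τ : ℝ) : Prop :=
  ∀ x : ℝ, a < x → ∀ t : ℝ, τ < t → Summable (fun n : ℕ => (f n x) ^ (-t))

/-- the parameters: the patterns, the degree and the size of the coefficients -/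
abbrev Par : Type := Σ r : ℕ, (Fin r → List (Letter 1)) × ℕ × ℕ

open Classical in
/-- one family of patterns -/
lemma one {f : ℕ → ℝ → ℝ} {a τ θ : ℝ} (hf : Starshaped a f) (hτ : 0 ≤ τ) (hE : ExpLe a f τ) (hθ : θ < 1) (i : Par) :
    ∃ E : Set ℝ, dimH E ≤ ENNReal.ofReal (τ / (1 - θ)) ∧ (Nice i.2.1 → ∀ α : ℝ, a < α → α ∉ E → ∀ c : ℝ,
      ∃ k₀ : ℕ, ∀ k : ℕ, k₀ ≤ k → ∀ n : ℕ, |(n : ℝ) - f k α| ≤ c * (f k α) ^ θ →
        0 < n ∧ ¬ Bad i.2.1 i.2.2.1 (((i.2.2.2 : ℝ) + 1) ^ n) (fun _ => n)) := by
  by_cases hN : Nice i.2.1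
  · obtain ⟨E, hE1, hE2⟩ := Pool.Agent.R482.ST.win_nat
      {n : ℕ | Bad i.2.1 i.2.2.1 (((i.2.2.2 : ℝ) + 1) ^ n) (fun _ => n)} hf hτ hE le_rfl hθ (fun ε hε => by
        obtain ⟨A, hA⟩ := count_one hN i.2.2.1 (C := (i.2.2.2 : ℝ) + 1)
          (by have : (0 : ℝ) ≤ i.2.2.2 := Nat.cast_nonneg _
              linarith) hε
        refine ⟨A, fun X hX => ?_⟩
        rw [zero_add]
        refine le_trans (le_of_eq ?_) (hA X hX)
        congr 1
        rw [← Set.ncard_coe_finset]
        congr 1
        ext t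
        simp only [Finset.coe_filter, Finset.mem_Ioc, Set.mem_ofPred_eq]
        exact ⟨fun h => ⟨h.1.1, h.1.2, h.2⟩, fun h => ⟨⟨h.1, h.2.1⟩, h.2.2⟩⟩)
    rw [zero_add] at hE1
    exact ⟨E, hE1, fun _ => hE2⟩
  · exact ⟨∅, by simp, fun h => absurd h hN⟩

/-- **Theorem.** (1) Let `f` be starshaped functions on `(a, ∞)` of exponent of convergence at most `τ ≥ 0`, and let `θ < 1`.
There is a set `E` of Hausdorff dimension at most `τ / (1 - θ)` such that for each `α > a` outside `E`, for all families
`w_1, ..., w_r` of admissible patterns in one variable with even fronts (or for which the relations between the multiple zeta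
values of the fronts split), all `D`, all real `C`, `c` and all but finitely many `k`, for EVERY integer `n` with
`|n - f_k(α)| ≤ c f_k(α) ^ θ`: `n > 0`, and every polynomial relation of degree at most `D` with integer coefficients of
absolute value at most `C ^ n` between the multiple zeta values `ζ(w_i(n))` splits into relations of one weight. (2) The
functions `v_n x`, `v_n > 0`, are starshaped on `(0, ∞)`, of exponent `τ` if `v` has exponent of convergence at most `τ`; the
functions `x ^ (v_n)`, `v_n ≥ 1`, are starshaped on `(1, ∞)`, of exponent `0` if the sums of `exp (-t v_n)` converge for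
`t > 0`; and the iterates of a map `g` with `g(x) > x` for `x > a` and `g(x) / x` nondecreasing are starshaped on `(a, ∞)`, of
exponent `0`. -/
theorem result :
    (∀ (f : ℕ → ℝ → ℝ) (a τ θ : ℝ), Starshaped a f → 0 ≤ τ → ExpLe a f τ → θ < 1 →
      ∃ E : Set ℝ, dimH E ≤ ENNReal.ofReal (τ / (1 - θ)) ∧ ∀ α : ℝ, a < α → α ∉ E →
        ∀ (r : ℕ) (w : Fin r → List (Letter 1)), (∀ i, AdmissiblePattern (w i)) →
          ((∀ i, EvenFront (w i)) ∨ Splits (fronts w)) → ∀ (D : ℕ) (C c : ℝ), ∃ k₀ : ℕ, ∀ k : ℕ, k₀ ≤ k → ∀ n : ℕ,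
            |(n : ℝ) - f k α| ≤ c * (f k α) ^ θ → 0 < n ∧ ¬ Bad w D (C ^ n) (fun _ => n)) ∧
    (∀ (v : ℕ → ℝ) (τ : ℝ), (∀ n, 0 < v n) → (∀ t : ℝ, τ < t → Summable (fun n : ℕ => (v n) ^ (-t))) →
      Starshaped 0 (fun n x => v n * x) ∧ ExpLe 0 (fun n x => v n * x) τ) ∧
    (∀ v : ℕ → ℝ, (∀ n, 1 ≤ v n) → (∀ t : ℝ, 0 < t → Summable fun n : ℕ => Real.exp (-(t * v n))) →
      Starshaped 1 (fun n x => x ^ (v n)) ∧ ExpLe 1 (fun n x => x ^ (v n)) 0) ∧
    (∀ (a : ℝ) (g : ℝ → ℝ), 0 ≤ a → (∀ x y : ℝ, a < x → x ≤ y → g x / x ≤ g y / y) → (∀ x : ℝ, a < x → x < g x) →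
      Starshaped a (fun n x => g^[n] x) ∧ ExpLe a (fun n x => g^[n] x) 0) := by
  refine ⟨fun f a τ θ hf hτ hE hθ => ?_, Pool.Agent.R482.ST.ex_mul, Pool.Agent.R482.ST.ex_pow,
    Pool.Agent.R482.ST.ex_orbit⟩
  choose E hE1 hE2 using one hf hτ hE hθ
  refine ⟨⋃ i, E i, ?_, fun α hα hαE r w hw hw2 D C c => ?_⟩
  · rw [dimH_iUnion]
    exact iSup_le hE1
  · have h1 : α ∉ E ⟨r, w, D, ⌈|C|⌉₊⟩ := fun h => hαE (Set.mem_iUnion.2 ⟨_, h⟩)
    obtain ⟨k₀, hk⟩ := hE2 ⟨r, w, D, ⌈|C|⌉₊⟩ ⟨hw, hw2⟩ α hα h1 c
    refine ⟨k₀, fun k hk1 n hn => ?_⟩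
    obtain ⟨h2, h3⟩ := hk k hk1 n hn
    refine ⟨h2, fun h4 => h3 (bad_mono ?_ h4)⟩
    calc C ^ n ≤ |C| ^ n := by
          rw [← abs_pow]
          exact le_abs_self _
      _ ≤ ((⌈|C|⌉₊ : ℝ) + 1) ^ n := by
          refine pow_le_pow_left₀ (abs_nonneg C) ?_ n
          have := Nat.le_ceil |C|
          linarith

end Pool.Agent.Results.MP_4d52ff_nt.StarshapedSequences
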